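import Pool.Agent.UL6.Stmts
import Pool.Agent.Helper27_UL5.HMX

/-!
Squad UL6 (MP_c7c9bf_co), row SEQ (helper37): selection, second part.
-/

set_option autoImplicit false

namespace Pool.Agent.UL6.H37

open MeasureTheory Set Pool.Agent.UL3 Pool.Agent.UL4 Pool.Agent.UL5

/-- the last point of the body on a ray -/
theorem ray {C : Set (ℝ × ℝ)} (hC : PB C) {p : ℝ × ℝ} (hp : p ∈ C) (hp0 : p ≠ 0) :
    ∃ s : ℝ, 1 ≤ s ∧ s • p ∈ C ∧ s • p ∉ interior C := by
  obtain ⟨S, hS⟩ : ∃ S : Set ℝ, S = (fun s : ℝ => s • p) ⁻¹' C := ⟨_, rfl⟩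
  have hcont : Continuous fun s : ℝ => s • p := by fun_prop
  have hcl : IsClosed S := by
    rw [hS]
    exact hC.cpt.isClosed.preimage hcont
  obtain ⟨R, hR⟩ := hC.cpt.isBounded.exists_norm_le
  have hpn : 0 < ‖p‖ := norm_pos_iff.2 hp0
  have hsub : S ⊆ Icc (-(R / ‖p‖)) (R / ‖p‖) := by
    intro s hs
    rw [hS] at hs
    have h1 := hR _ hs
    rw [norm_smul, Real.norm_eq_abs] at h1
    have h2 : |s| ≤ R / ‖p‖ := by
      rw [le_div_iff₀ hpn]
      exact h1
    exact abs_le.1 h2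
  have hcpt : IsCompact S := isCompact_Icc.of_isClosed_subset hcl hsub
  have h1S : (1 : ℝ) ∈ S := by
    rw [hS]
    show (1 : ℝ) • p ∈ C
    rw [one_smul]
    exact hp
  obtain ⟨s, hs⟩ := hcpt.exists_isGreatest ⟨1, h1S⟩
  have hsC : s • p ∈ C := by
    have h1 := hs.1
    rw [hS] at h1
    exact h1
  refine ⟨s, hs.2 h1S, hsC, ?_⟩
  intro hint
  have h2 : (fun s : ℝ => s • p) ⁻¹' interior C ∈ nhds s :=
    (isOpen_interior.preimage hcont).mem_nhds hint
  obtain ⟨ε, hε, hball⟩ := Metric.mem_nhds_iff.1 h2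
  have h3 : s + ε / 2 ∈ Metric.ball s ε := by
    rw [Metric.mem_ball, Real.dist_eq, add_sub_cancel_left, abs_of_pos (by linarith)]
    linarith
  have h4 : s + ε / 2 ∈ S := by
    rw [hS]
    exact interior_subset (s := C) (hball h3)
  have h5 := hs.2 h4
  linarith

theorem pos_of_mul_pos_left_aux {a b : ℝ} (h : 0 < a * b) (ha : 0 < a) : 0 < b := by
  by_contra hb
  push Not at hb
  nlinarith

theorem seq (hSEG : SegStmt) (hCHC : ChcStmt) : SeqStmt := by
  intro C w m r hC hw hm hm2 hr hr34 hrw hmw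
  rcases hSEG C w m r hC hw hm hm2 hr hr34 hrw with h | h
  · exact h
  obtain ⟨hm1, -, -, hm4, -⟩ := Pool.Agent.UL5.H27.hmx C hC
  have h0i : (0 : ℝ × ℝ) ∈ interior C := hC.zero_mem
  -- a boundary point
  obtain ⟨p₀, hp₀, hp₀0⟩ : ∃ p : ℝ × ℝ, p ∈ C ∧ p ≠ 0 := by
    obtain ⟨ε, hε, hball⟩ := Metric.mem_nhds_iff.1 (isOpen_interior.mem_nhds h0i)
    refine ⟨(ε / 2, 0), interior_subset (hball ?_), ?_⟩
    · rw [Metric.mem_ball, dist_zero_right, Prod.norm_def]
      simp only [norm_zero, Real.norm_eq_abs]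
      rw [abs_of_pos (by linarith : (0 : ℝ) < ε / 2), max_lt_iff]
      constructor <;> linarith
    · intro h0
      have h1 := congrArg Prod.fst h0
      simp only [Prod.fst_zero] at h1
      linarith
  obtain ⟨s₀, -, hu, hui⟩ := ray hC hp₀ hp₀0
  obtain ⟨u, hudef⟩ : ∃ u : ℝ × ℝ, u = s₀ • p₀ := ⟨_, rfl⟩
  rw [← hudef] at hu hui
  have hu0 : u ≠ 0 := by
    rintro rfl
    exact hui h0i
  have hHpos : 0 < Hm C u := hm4 u hu0
  have hu4 := h u hu hui
  have har : 0 < ar C := by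
    have h1 : 0 < (2 - m) * ar C := by
      have h2 : 0 < 4 * w * Hm C u := by positivity
      linarith
    exact pos_of_mul_pos_left_aux h1 (by linarith)
  have hur : 4 * r * Hm C u ≤ ar C := by
    by_contra h1
    push Not at h1
    have h2 : (2 - m) * ar C < (2 - m) * (4 * r * Hm C u) :=
      mul_lt_mul_of_pos_left h1 (by linarith)
    have h3 : (2 - m) * (4 * r * Hm C u) ≤ 4 * w * Hm C u := by
      have h4 : r * (2 - m) * (4 * Hm C u) ≤ w * (4 * Hm C u) :=
        mul_le_mul_of_nonneg_right hrw (by positivity)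
      linarith
    linarith
  rcases hCHC C u (m / 4 * ar C) w hC hu hui hw with ⟨q, hq1, hq2⟩ | ⟨p, l, hp, hpl, hcrp, hl⟩
  · exact ⟨u, q, hu, hui, hur, hq1, hq2⟩
  exfalso
  obtain ⟨k, hk⟩ : ∃ k : ℝ, k = m / 4 * ar C := ⟨_, rfl⟩
  have hkpos : 0 < k := by
    rw [hk]
    positivity
  have hlpos : 0 < l := by linarith
  have hp' : p + (2 * w) • u ∈ C := by
    have h1 := hC.cvx hp hpl (a := 1 - 2 * w / l) (b := 2 * w / l)
      (by rw [sub_nonneg, div_le_one hlpos]; linarith) (by positivity) (by ring)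
    have h2 : (1 - 2 * w / l) • p + (2 * w / l) • (p + l • u) = p + (2 * w) • u := by
      have h3 : 2 * w / l * l = 2 * w := by field_simp
      rw [smul_add, smul_smul, h3]
      module
    rwa [h2] at h1
  have hcr1 : cr u (p + (2 * w) • u) = k := by
    have h1 : cr u (p + (2 * w) • u) = cr u p := by
      unfold cr
      simp only [Prod.fst_add, Prod.snd_add, Prod.smul_fst, Prod.smul_snd, smul_eq_mul]
      ring
    rw [h1, hcrp, hk]
  have hp'0 : p + (2 * w) • u ≠ 0 := by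
    intro h0
    rw [h0] at hcr1
    have h1 : cr u 0 = 0 := by
      unfold cr
      simp
    linarith
  obtain ⟨s, hs1, hsC, hsi⟩ := ray hC hp' hp'0
  have h5 := h _ hsC hsi
  have h6 : 2 * w * k ≤ Hm C (s • (p + (2 * w) • u)) := by
    have h7 := hm1 (s • (p + (2 * w) • u)) p hp
    have h8 : cr (s • (p + (2 * w) • u)) p = s * (2 * w * k) := by
      have h9 : cr (s • (p + (2 * w) • u)) p = s * (2 * w * cr u p) := by
        unfold cr
        simp only [Prod.fst_add, Prod.snd_add, Prod.smul_fst, Prod.smul_snd, smul_eq_mul]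
        ring
      rw [h9, hcrp, hk]
    rw [h8] at h7
    have h10 : 0 < 2 * w * k := by positivity
    have h11 : 2 * w * k ≤ s * (2 * w * k) := le_mul_of_one_le_left h10.le hs1
    exact h11.trans ((le_abs_self _).trans h7)
  have h12 : 4 * w * (2 * w * k) ≤ 4 * w * Hm C (s • (p + (2 * w) • u)) :=
    mul_le_mul_of_nonneg_left h6 (by positivity)
  have h13 : 4 * w * (2 * w * k) = 2 * w ^ 2 * m * ar C := by
    rw [hk]
    ring
  have h14 : (2 - m) * ar C ≤ 2 * w ^ 2 * m * ar C := mul_le_mul_of_nonneg_right hmw har.le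
  linarith

end Pool.Agent.UL6.H37
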